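import Pool.Agent.E8helper30.MC.Stm

/-!
# Project MC (helper30), piece SGR
-/

set_option autoImplicit false

namespace Pool.Agent.E8helper98.MC

open Pool.Agent.E8helper30.MC

/-- **SGR** -/
theorem t_SGR : S_SGR := by
  intro G _ _ t ht htG
  obtain ⟨H, hH, hmax⟩ := Set.exists_max_image {H : AddSubgroup G | Nat.card H ≤ t}
    (fun H => Nat.card H) (Set.toFinite _) ⟨⊥, by
      show Nat.card (⊥ : AddSubgroup G) ≤ t
      rw [AddSubgroup.card_bot]
      exact ht⟩
  have hH' : Nat.card H ≤ t := hH
  obtain ⟨x, hx⟩ : ∃ x, x ∉ H := by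
    by_contra hc
    push Not at hc
    have h1 : H = ⊤ := by
      ext y
      simp [hc y]
    rw [h1, AddSubgroup.card_top] at hH'
    omega
  have hfin : Finite (G ⧸ H) := inferInstance
  set y : G ⧸ H := (x : G ⧸ H) with hy
  have hpos : 0 < addOrderOf y := addOrderOf_pos y
  have hne1 : addOrderOf y ≠ 1 := by
    intro h
    rw [AddMonoid.addOrderOf_eq_one_iff, hy, QuotientAddGroup.eq_zero_iff] at h
    exact hx h
  have h2 : 2 ≤ addOrderOf y := by omega
  set Z := AddSubgroup.zmultiples y with hZ
  set H' := Z.comap (QuotientAddGroup.mk' H) with hH'd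
  have hcZ : Nat.card Z = addOrderOf y := Nat.card_zmultiples y
  have e1 : Nat.card Z * Z.index = Nat.card (G ⧸ H) := Z.card_mul_index
  have e2 : Nat.card H' * H'.index = Nat.card G := H'.card_mul_index
  have e3 : H'.index = Z.index :=
    AddSubgroup.index_comap_of_surjective Z (QuotientAddGroup.mk'_surjective H)
  have e4 : Nat.card H * H.index = Nat.card G := H.card_mul_index
  have e5 : H.index = Nat.card (G ⧸ H) := H.index_eq_card
  have hGpos : 0 < Nat.card G := Nat.card_pos
  have hHpos : 0 < Nat.card H := Nat.card_pos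
  have hZi : 0 < Z.index := by
    rcases Nat.eq_zero_or_pos Z.index with h | h
    · rw [e3, h, mul_zero] at e2
      omega
    · exact h
  have e6 : Nat.card H' = addOrderOf y * Nat.card H := by
    rw [e3] at e2
    rw [e5, ← e1, hcZ] at e4
    apply Nat.eq_of_mul_eq_mul_right hZi
    rw [e2, ← e4]
    ring
  refine ⟨H, H', x, addOrderOf y, hH', ?_, h2, e6, fun i => ?_⟩
  · by_contra hc
    push Not at hc
    have h3 := hmax H' (by show Nat.card H' ≤ t; rw [e6]; exact hc)
    rw [e6] at h3
    nlinarith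
  · rw [addOrderOf_dvd_iff_zsmul_eq_zero, hy, ← QuotientAddGroup.mk_zsmul,
      QuotientAddGroup.eq_zero_iff]

end Pool.Agent.E8helper98.MC
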